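import Pool.Agent.Helper5.FRD.Goals
import Pool.Agent.Helper33.FRC.CLOSE

/-!
# Project FRD (MP_79b960_co), packet CLOSEH
-/

set_option autoImplicit false

namespace Pool.Agent.Helper34.FRD.CLOSEH

open Finset
open Pool.Agent.Helper5.FRC Pool.Agent.Helper5.FRD Pool.Agent.Helper33.FRC.CLOSE

variable {V : Type} [DecidableEq V]

theorem cut2 (A : Finset V) (t : V → V) (hA : Prg A t) (z w : V) (hz : z ∈ A) (hw : w ∈ A)
    (hzw : z ≠ w) (X : Finset V) (hX : X ⊆ A) (hzx : z ∈ X ↔ w ∈ X) :
    dm (t1 t z w) (X \ {z, w}) ≤ dm t X := by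
  obtain ⟨z1, z2, z3⟩ := hA z hz
  obtain ⟨w1, w2, w3⟩ := hA w hw
  unfold dm
  apply card_le_card_of_injOn
    (fun x => if z ∈ X ∧ t x = z then w else if z ∈ X ∧ t x = w then z else x)
  · intro x hx
    rw [mem_coe, mem_filter, mem2] at hx
    obtain ⟨⟨hxX, hxz, hxw⟩, hx2⟩ := hx
    obtain ⟨-, xx, -⟩ := hA x (hX hxX)
    rw [mem_coe, mem_filter]
    by_cases c1 : t x = z
    · have e1 : t1 t z w x = t w := by simp [t1, c1]
      rw [e1, mem2] at hx2
      by_cases hzX : z ∈ X
      · have e : (if z ∈ X ∧ t x = z then w else if z ∈ X ∧ t x = w then z else x) = w :=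
          if_pos ⟨hzX, c1⟩
        simp only [e]
        refine ⟨hzx.1 hzX, fun h => hx2 ⟨h, ?_, w3⟩⟩
        intro h4
        apply hxw
        rw [← xx, c1, ← h4, w2]
      · have e : (if z ∈ X ∧ t x = z then w else if z ∈ X ∧ t x = w then z else x) = x := by
          rw [if_neg fun h => hzX h.1, if_neg fun h => hzX h.1]
        simp only [e]
        exact ⟨hxX, by rw [c1]; exact hzX⟩
    · by_cases c2 : t x = w
      · have e1 : t1 t z w x = t z := by simp [t1, c2, hzw.symm]
        rw [e1, mem2] at hx2
        by_cases hzX : z ∈ X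
        · have e : (if z ∈ X ∧ t x = z then w else if z ∈ X ∧ t x = w then z else x) = z := by
            rw [if_neg fun h => c1 h.2, if_pos ⟨hzX, c2⟩]
          simp only [e]
          refine ⟨hzX, fun h => hx2 ⟨h, z3, ?_⟩⟩
          intro h4
          apply hxz
          rw [← xx, c2, ← h4, z2]
        · have e : (if z ∈ X ∧ t x = z then w else if z ∈ X ∧ t x = w then z else x) = x := by
            rw [if_neg fun h => hzX h.1, if_neg fun h => hzX h.1]
          simp only [e]
          exact ⟨hxX, by rw [c2]; exact fun h => hzX (hzx.2 h)⟩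
      · have e1 : t1 t z w x = t x := by simp [t1, c1, c2]
        rw [e1, mem2] at hx2
        have e : (if z ∈ X ∧ t x = z then w else if z ∈ X ∧ t x = w then z else x) = x := by
          rw [if_neg fun h => c1 h.2, if_neg fun h => c2 h.2]
        simp only [e]
        exact ⟨hxX, fun h => hx2 ⟨h, c1, c2⟩⟩
  · intro x hx y hy hxy
    rw [mem_coe, mem_filter, mem2] at hx hy
    obtain ⟨⟨hxX, hxz, hxw⟩, -⟩ := hx
    obtain ⟨⟨hyX, hyz, hyw⟩, -⟩ := hy
    obtain ⟨-, xx, -⟩ := hA x (hX hxX)
    obtain ⟨-, yy, -⟩ := hA y (hX hyX)
    simp only at hxy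
    by_cases a1 : z ∈ X ∧ t x = z
    · rw [if_pos a1] at hxy
      by_cases b1 : z ∈ X ∧ t y = z
      · rw [← xx, a1.2, ← b1.2, yy]
      · rw [if_neg b1] at hxy
        by_cases b2 : z ∈ X ∧ t y = w
        · rw [if_pos b2] at hxy
          exact absurd hxy.symm hzw
        · rw [if_neg b2] at hxy
          exact absurd hxy.symm hyw
    · rw [if_neg a1] at hxy
      by_cases a2 : z ∈ X ∧ t x = w
      · rw [if_pos a2] at hxy
        by_cases b1 : z ∈ X ∧ t y = z
        · rw [if_pos b1] at hxy
          exact absurd hxy hzw
        · rw [if_neg b1] at hxy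
          by_cases b2 : z ∈ X ∧ t y = w
          · rw [← xx, a2.2, ← b2.2, yy]
          · rw [if_neg b2] at hxy
            exact absurd hxy.symm hyz
      · rw [if_neg a2] at hxy
        by_cases b1 : z ∈ X ∧ t y = z
        · rw [if_pos b1] at hxy
          exact absurd hxy hxw
        · rw [if_neg b1] at hxy
          by_cases b2 : z ∈ X ∧ t y = w
          · rw [if_pos b2] at hxy
            exact absurd hxy hxz
          · rw [if_neg b2] at hxy
            exact hxy

theorem main [Fintype V] (A Z : Finset V) (t p : V → V) (hA : Prg A t) (hZA : Z ⊆ A)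
    (hZ : Prg Z p) : ∃ t' : V → V, Red A Z t p t' := by
  induction hn : Z.card using Nat.strong_induction_on generalizing A Z t with
  | _ n ih =>
    rcases Z.eq_empty_or_nonempty with rfl | ⟨z, hz⟩
    · refine ⟨t, by rw [sdiff_empty]; exact hA, ?_, ?_⟩
      · intro K _
        exact ⟨∅, Subset.refl _, by simp, by rw [union_empty]⟩
      · intro X _ _
        rw [sdiff_empty]
    · obtain ⟨hw, hwz, hne⟩ := hZ z hz
      set w := p z with hwdef
      have hzw : z ≠ w := hne.symm
      have hzA := hZA hz
      have hwA := hZA hw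
      have hZ1 : Prg (Z \ {z, w}) p := by
        intro x hx
        rw [mem2] at hx
        obtain ⟨a, b, c⟩ := hZ x hx.1
        refine ⟨?_, b, c⟩
        rw [mem2]
        refine ⟨a, ?_, ?_⟩
        · intro h
          apply hx.2.2
          rw [hwdef, ← h, b]
        · intro h
          apply hx.2.1
          rw [← hwz, ← h, b]
      have hsub : Z \ {z, w} ⊆ A \ {z, w} := sdiff_subset_sdiff hZA (Subset.refl _)
      have hcard : (Z \ {z, w}).card < n := by
        rw [← hn]
        apply card_lt_card
        refine ⟨sdiff_subset, fun h => ?_⟩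
        exact ((mem2 Z z w z).1 (h hz)).2.1 rfl
      obtain ⟨t', h1, h2, h3⟩ := ih _ hcard (A \ {z, w}) (Z \ {z, w}) (t1 t z w)
        (prg1 A t hA z w hzA hwA hzw) hsub hZ1 rfl
      have hAZ : ∀ B : Finset V, (B \ {z, w}) \ (Z \ {z, w}) = B \ Z := by
        intro B
        ext x
        simp only [mem_sdiff, mem_insert, mem_singleton, not_or, not_and, not_not]
        constructor
        · rintro ⟨⟨a, b, c⟩, d⟩
          exact ⟨a, fun hxZ => c (d hxZ b)⟩
        · rintro ⟨a, b⟩
          refine ⟨⟨a, ?_, ?_⟩, fun hxZ => absurd hxZ b⟩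
          · rintro rfl
            exact b hz
          · rintro rfl
            exact b hw
      rw [hAZ] at h1 h2
      refine ⟨t', h1, ?_, ?_⟩
      · intro K hK
        obtain ⟨W, hW, hWp, hWd⟩ := h2 K hK
        have hKW : K ∪ W ⊆ A \ {z, w} := by
          apply union_subset
          · intro x hx
            have hx' := mem_sdiff.1 (hK hx)
            rw [mem2]
            refine ⟨hx'.1, ?_, ?_⟩
            · rintro rfl
              exact hx'.2 hz
            · rintro rfl
              exact hx'.2 hw
          · exact hW.trans hsub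
        obtain ⟨W1, hW1, hd⟩ := cut1 A t hA z w hzA hwA hzw (K ∪ W) hKW
        refine ⟨W ∪ W1, ?_, ?_, ?_⟩
        · apply union_subset
          · exact hW.trans sdiff_subset
          · rcases hW1 with rfl | rfl
            · exact empty_subset _
            · intro x hx
              simp only [mem_insert, mem_singleton] at hx
              rcases hx with rfl | rfl
              · exact hz
              · exact hw
        · intro x hx
          rw [mem_union] at hx ⊢
          rcases hx with hx | hx
          · exact Or.inl (hWp x hx)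
          · right
            rcases hW1 with rfl | rfl
            · simp at hx
            · simp only [mem_insert, mem_singleton] at hx ⊢
              rcases hx with rfl | rfl
              · right
                rfl
              · left
                exact hwz
        · rw [← union_assoc, hd, hWd]
      · intro X hX hp
        have hXs : X \ {z, w} ⊆ A \ {z, w} := sdiff_subset_sdiff hX (Subset.refl _)
        have key := h3 (X \ {z, w}) hXs ?_
        · rw [hAZ] at key
          refine key.trans (cut2 A t hA z w hzA hwA hzw X hX ⟨fun h => hp z h hz, fun h => ?_⟩)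
          have := hp w h hw
          rw [hwz] at this
          exact this
        · intro y hy hyZ
          have hy2 := (hZ1 y hyZ).1
          rw [mem2] at hy hy2 ⊢
          exact ⟨hp y hy.1 ((mem2 Z z w y).1 hyZ).1, hy2.2⟩

/-- Packet CLOSEH. -/
theorem t : ClosehStmt := by
  intro V _ _ A Z t p h1 h2 h3
  exact main A Z t p h1 h2 h3

end Pool.Agent.Helper34.FRD.CLOSEH
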